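import Pool.Agent.H752.PG.Stubs

/-! Task P1 (helper862): there are few circuits. -/

namespace Pool.Agent.H752.PG

open Pool.Agent.NPC Pool.Agent.H620R2.Gauge Finset

/-- references which are normalised -/
abbrev P1R (m : ℕ) : Type := Fin (2 * m + 1) × Bool

/-- alphabet -/
abbrev P1S (m : ℕ) : Type := Fin 3 ⊕ P1R m

def p1cvt (m : ℕ) (u : ℕ × Bool) : P1R m := (⟨min u.1 (2 * m), by omega⟩, u.2)

def p1bk {m : ℕ} (r : P1R m) : ℕ × Bool := (r.1.val, r.2)

def p1nrm (m : ℕ) (u : ℕ × Bool) : ℕ × Bool := (min u.1 (2 * m), u.2)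

theorem p1bk_cvt (m : ℕ) (u : ℕ × Bool) : p1bk (p1cvt m u) = p1nrm m u := rfl

def p1nrmG (m : ℕ) : Gate → Gate
  | .and u v => .and (p1nrm m u) (p1nrm m v)
  | .or u v => .or (p1nrm m u) (p1nrm m v)
  | .orc l => .orc (l.map (p1nrm m))

theorem p1size (m : ℕ) (g : Gate) : (p1nrmG m g).size = g.size := by
  cases g <;> simp [p1nrmG, Gate.size]

theorem p1rd (m : ℕ) (ws : List Bool) (h : ws.length ≤ 2 * m) (u : ℕ × Bool) :
    rd ws (p1nrm m u) = rd ws u := by
  unfold rd p1nrm
  rcases le_total u.1 (2 * m) with h1 | h1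
  · rw [min_eq_left h1]
  · rw [min_eq_right h1]
    simp only
    rw [List.getD_eq_default _ _ h, List.getD_eq_default _ _ (h.trans h1)]

theorem p1val (m : ℕ) (A : Oracle) (ws : List Bool) (h : ws.length ≤ 2 * m) (g : Gate) :
    (p1nrmG m g).val A ws = g.val A ws := by
  cases g with
  | and u v => simp only [p1nrmG, Gate.val, p1rd m ws h]
  | or u v => simp only [p1nrmG, Gate.val, p1rd m ws h]
  | orc l =>
    simp only [p1nrmG, Gate.val, List.map_map]
    congr 1
    apply List.map_congr_left
    intro u _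
    exact p1rd m ws h u

theorem p1fold (m : ℕ) (A : Oracle) (gs : List Gate) : ∀ (ws : List Bool),
    ws.length + gs.length ≤ 2 * m →
    (gs.map (p1nrmG m)).foldl (fun ws g => ws ++ [g.val A ws]) ws =
      gs.foldl (fun ws g => ws ++ [g.val A ws]) ws := by
  induction gs with
  | nil => intro ws _; rfl
  | cons g gs ih =>
    intro ws h
    rw [List.length_cons] at h
    rw [List.map_cons, List.foldl_cons, List.foldl_cons, p1val m A ws (by omega)]
    apply ih
    rw [List.length_append, List.length_singleton]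
    omega

theorem p1len (A : Oracle) (gs : List Gate) : ∀ (ws : List Bool),
    (gs.foldl (fun ws g => ws ++ [g.val A ws]) ws).length = ws.length + gs.length := by
  induction gs with
  | nil => intro ws; rfl
  | cons g gs ih =>
    intro ws
    rw [List.foldl_cons, ih, List.length_append, List.length_singleton, List.length_cons]
    omega

theorem p1gl (gs : List Gate) : gs.length ≤ (gs.map Gate.size).sum := by
  induction gs with
  | nil => simp
  | cons g gs ih =>
    rw [List.map_cons, List.sum_cons, List.length_cons]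
    have : 1 ≤ g.size := by cases g <;> simp [Gate.size]
    omega

def p1nrmC (m : ℕ) (C : Circuit) : Circuit := ⟨C.gates.map (p1nrmG m), p1nrm m C.out⟩

theorem p1nrmC_size (m : ℕ) (C : Circuit) : (p1nrmC m C).size = C.size := by
  unfold Circuit.size p1nrmC
  rw [List.map_map]
  congr 1
  apply List.map_congr_left
  intro g _
  exact p1size m g

theorem p1nrmC_eval (m : ℕ) (C : Circuit) (h : C.size ≤ m) (A : Oracle) (x : List Bool)
    (hx : x.length = m) : (p1nrmC m C).eval A x = C.eval A x := by
  have h1 : C.gates.length ≤ m := (p1gl C.gates).trans h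
  unfold Circuit.eval
  have h2 : (p1nrmC m C).wires A x = C.wires A x := p1fold m A C.gates x (by omega)
  rw [h2]
  apply p1rd
  have h3 := p1len A C.gates x
  unfold Circuit.wires
  omega

/-! ### codes -/

def p1enc (m : ℕ) : Gate → List (P1S m)
  | .and u v => [Sum.inl 0, Sum.inr (p1cvt m u), Sum.inr (p1cvt m v)]
  | .or u v => [Sum.inl 1, Sum.inr (p1cvt m u), Sum.inr (p1cvt m v)]
  | .orc l => Sum.inl 2 :: l.map (fun u => Sum.inr (p1cvt m u))

def p1mk : Fin 3 → List (ℕ × Bool) → Gate
  | 0, [u, v] => .and u v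
  | 1, [u, v] => .or u v
  | _, l => .orc l

def p1step {m : ℕ} (s : Option (P1S m)) (st : List (ℕ × Bool) × List Gate) :
    List (ℕ × Bool) × List Gate :=
  match s with
  | none => st
  | some (Sum.inr u) => (p1bk u :: st.1, st.2)
  | some (Sum.inl t) => ([], p1mk t st.1 :: st.2)

def p1dec {m : ℕ} (l : List (Option (P1S m))) : List (ℕ × Bool) × List Gate :=
  l.foldr p1step ([], [])

theorem p1dec_refs {m : ℕ} (l : List (ℕ × Bool)) (st : List (ℕ × Bool) × List Gate) :
    (l.map (fun u => some (Sum.inr (p1cvt m u) : P1S m))).foldr p1step st =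
      (l.map (p1nrm m) ++ st.1, st.2) := by
  induction l with
  | nil => rfl
  | cons u l ih =>
    rw [List.map_cons, List.foldr_cons, ih]
    rfl

theorem p1dec_gate {m : ℕ} (g : Gate) (gs : List Gate) :
    ((p1enc m g).map some).foldr p1step ([], gs) = ([], p1nrmG m g :: gs) := by
  cases g with
  | and u v => rfl
  | or u v => rfl
  | orc l =>
    have h : (p1enc m (Gate.orc l)).map some =
        some (Sum.inl 2) :: l.map (fun u => some (Sum.inr (p1cvt m u) : P1S m)) := by
      simp only [p1enc, List.map_cons, List.map_map]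
      rfl
    rw [h, List.foldr_cons, p1dec_refs]
    simp only [List.append_nil]
    rfl

theorem p1dec_gates {m : ℕ} (gs : List Gate) (st : List (Option (P1S m)))
    (hst : st.foldr p1step ([], []) = ([], [])) :
    ((gs.flatMap (p1enc m)).map some ++ st).foldr p1step ([], []) = ([], gs.map (p1nrmG m)) := by
  induction gs with
  | nil => simpa using hst
  | cons g gs ih =>
    rw [List.flatMap_cons, List.map_append, List.append_assoc, List.foldr_append, ih, p1dec_gate]
    rfl

theorem p1pad {m : ℕ} (n : ℕ) :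
    (List.replicate n (none : Option (P1S m))).foldr p1step ([], []) = ([], []) := by
  induction n with
  | zero => rfl
  | succ n ih => rw [List.replicate_succ, List.foldr_cons, ih]; rfl

theorem p1enc_len (m : ℕ) (g : Gate) : (p1enc m g).length ≤ 3 * g.size := by
  cases g with
  | and u v => simp [p1enc, Gate.size]
  | or u v => simp [p1enc, Gate.size]
  | orc l =>
    simp only [p1enc, Gate.size, List.length_cons, List.length_map]
    omega

theorem p1encs_len (m : ℕ) (gs : List Gate) :
    (gs.flatMap (p1enc m)).length ≤ 3 * (gs.map Gate.size).sum := by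
  induction gs with
  | nil => simp
  | cons g gs ih =>
    rw [List.flatMap_cons, List.length_append, List.map_cons, List.sum_cons]
    have := p1enc_len m g
    omega

def p1code {m : ℕ} (v : List.Vector (Option (P1S m)) (3 * m) × P1R m) : Circuit :=
  ⟨(p1dec v.1.1).2, p1bk v.2⟩

theorem p1code_surj (m : ℕ) (C : Circuit) (h : C.size ≤ m) :
    ∃ v : List.Vector (Option (P1S m)) (3 * m) × P1R m, p1code v = p1nrmC m C := by
  have hl := p1encs_len m C.gates
  have hl2 : (C.gates.flatMap (p1enc m)).length ≤ 3 * m := by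
    unfold Circuit.size at h
    omega
  refine ⟨(⟨(C.gates.flatMap (p1enc m)).map some ++
    List.replicate (3 * m - (C.gates.flatMap (p1enc m)).length) none, ?_⟩, p1cvt m C.out), ?_⟩
  · rw [List.length_append, List.length_map, List.length_replicate]
    omega
  · unfold p1code p1dec
    rw [p1dec_gates C.gates _ (p1pad _)]
    rfl

theorem p1card (m : ℕ) : Fintype.card (List.Vector (Option (P1S m)) (3 * m) × P1R m) ≤
    2 ^ (40 * (m + 1) ^ 2) := by
  rw [Fintype.card_prod, card_vector, Fintype.card_option, Fintype.card_sum, Fintype.card_prod,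
    Fintype.card_fin, Fintype.card_fin, Fintype.card_bool]
  have h1 : m + 1 ≤ 2 ^ m := Nat.lt_two_pow_self
  have h2 : 3 + (2 * m + 1) * 2 + 1 ≤ 2 ^ (m + 3) := by
    rw [pow_add]
    omega
  have h3 : (2 * m + 1) * 2 ≤ 2 ^ (m + 3) := by
    rw [pow_add]
    omega
  calc (3 + (2 * m + 1) * 2 + 1) ^ (3 * m) * ((2 * m + 1) * 2)
      ≤ (2 ^ (m + 3)) ^ (3 * m) * 2 ^ (m + 3) :=
        Nat.mul_le_mul (Nat.pow_le_pow_left h2 _) h3
    _ = 2 ^ ((m + 3) * (3 * m) + (m + 3)) := by rw [← pow_mul, ← pow_add]
    _ ≤ 2 ^ (40 * (m + 1) ^ 2) := by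
        apply Nat.pow_le_pow_right (by norm_num)
        nlinarith

theorem t_count : St_count := by
  classical
  intro m
  refine ⟨(Finset.univ.image (p1code (m := m))).filter (fun C => C.size ≤ m), ?_, ?_, ?_⟩
  · intro C hC
    exact (Finset.mem_filter.1 hC).2
  · refine (Finset.card_filter_le _ _).trans (Finset.card_image_le.trans ?_)
    rw [Finset.card_univ]
    exact p1card m
  · intro C hC
    obtain ⟨v, hv⟩ := p1code_surj m C hC
    refine ⟨p1nrmC m C, ?_, fun A x hx => p1nrmC_eval m C hC A x hx⟩
    rw [Finset.mem_filter]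
    refine ⟨Finset.mem_image.2 ⟨v, Finset.mem_univ _, hv⟩, ?_⟩
    rw [p1nrmC_size]
    exact hC

end Pool.Agent.H752.PG
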